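import Pool.Agent.Helper26.HB.Goals

set_option autoImplicit false

/-!
Project HB (helper26, MP_a47ed5_al), packet S2: the logarithm of the real Heisenberg group.
-/

open scoped commutatorElement

namespace Pool.Agent.Helper94.HB

open Pool.Agent.Helper26.HB

/-- The underlying set of the central extension. -/
@[ext] structure MM (N : Type) where
  /-- the group coordinate -/
  p : N
  /-- the central coordinate -/
  q : ℝ

section
variable {N : Type} [Group N] {β : N → N → ℝ}

theorem b1l (h1 : ∀ x y z, β (x * y) z = β x z + β y z) (x : N) : β 1 x = 0 := by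
  have := h1 1 1 x
  rw [mul_one] at this
  linarith

theorem b1r (h2 : ∀ x y z, β x (y * z) = β x y + β x z) (x : N) : β x 1 = 0 := by
  have := h2 x 1 1
  rw [mul_one] at this
  linarith

/-- The central extension. -/
@[reducible] noncomputable def grp (h1 : ∀ x y z, β (x * y) z = β x z + β y z)
    (h2 : ∀ x y z, β x (y * z) = β x y + β x z) : Group (MM N) where
  mul a b := ⟨a.p * b.p, a.q + b.q - β a.p b.p / 2⟩
  one := ⟨1, 0⟩
  inv a := ⟨a.p⁻¹, - a.q + β a.p⁻¹ a.p / 2⟩
  mul_assoc a b c := by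
    change MM.mk _ _ = MM.mk _ _
    refine MM.ext (mul_assoc _ _ _) ?_
    change a.q + b.q - β a.p b.p / 2 + c.q - β (a.p * b.p) c.p / 2
      = a.q + (b.q + c.q - β b.p c.p / 2) - β a.p (b.p * c.p) / 2
    rw [h1, h2]
    ring
  one_mul a := by
    change MM.mk _ _ = a
    refine MM.ext (one_mul _) ?_
    change 0 + a.q - β 1 a.p / 2 = a.q
    rw [b1l h1]
    ring
  mul_one a := by
    change MM.mk _ _ = a
    refine MM.ext (mul_one _) ?_
    change a.q + 0 - β a.p 1 / 2 = a.q
    rw [b1r h2]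
    ring
  inv_mul_cancel a := by
    change MM.mk _ _ = MM.mk _ _
    refine MM.ext (inv_mul_cancel _) ?_
    change - a.q + β a.p⁻¹ a.p / 2 + a.q - β a.p⁻¹ a.p / 2 = 0
    ring

/-- If `β` is biadditive and `k` additive on commutators with `β x y = lam ⁅x, y⁆`, then the
real numbers split off. -/
theorem split (h1 : ∀ x y z, β (x * y) z = β x z + β y z)
    (h2 : ∀ x y z, β x (y * z) = β x y + β x z) (lam : N → ℝ)
    (hl : ∀ k ∈ commutator N, ∀ k' ∈ commutator N, lam (k * k') = lam k + lam k')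
    (hβ : ∀ x y, β x y = lam ⁅x, y⁆) (hk : ∀ k ∈ commutator N, ∀ x, β k x = 0)
    (hx : ∀ x y, β y x = - β x y) :
    ∃ ζ : N → ℝ, ∀ x y, ζ (x * y) = ζ x + ζ y + β x y / 2 := by
  classical
  let _inst : Group (MM N) := grp h1 h2
  have hmul : ∀ a b : MM N, a * b = ⟨a.p * b.p, a.q + b.q - β a.p b.p / 2⟩ := fun _ _ => rfl
  have hone : (1 : MM N) = ⟨1, 0⟩ := rfl
  have hlam1 : lam 1 = 0 := by
    have := hl 1 (Subgroup.one_mem _) 1 (Subgroup.one_mem _)
    rw [mul_one] at this
    linarith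
  -- the subgroup `K`
  let K : Subgroup (MM N) :=
    { carrier := {a | a.p ∈ commutator N ∧ a.q = - lam a.p}
      mul_mem' := by
        rintro a b ⟨ha, ha'⟩ ⟨hb, hb'⟩
        rw [hmul]
        refine ⟨Subgroup.mul_mem _ ha hb, ?_⟩
        change a.q + b.q - β a.p b.p / 2 = - lam (a.p * b.p)
        rw [hl _ ha _ hb, hk _ ha, ha', hb']
        ring
      one_mem' := by
        rw [hone]
        refine ⟨Subgroup.one_mem _, ?_⟩
        change (0 : ℝ) = - lam 1
        rw [hlam1]
        ring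
      inv_mem' := by
        rintro a ⟨ha, ha'⟩
        have hi : a⁻¹ = ⟨a.p⁻¹, - a.q + β a.p⁻¹ a.p / 2⟩ := rfl
        rw [hi]
        have hai := Subgroup.inv_mem _ ha
        refine ⟨hai, ?_⟩
        change - a.q + β a.p⁻¹ a.p / 2 = - lam a.p⁻¹
        have := hl _ hai _ ha
        rw [inv_mul_cancel, hlam1] at this
        rw [hk _ hai, ha']
        linarith }
  have hcomm : commutator (MM N) ≤ K := by
    refine Subgroup.commutator_le.2 ?_
    intro a _ b _
    have hc : ⁅a.p, b.p⁆ ∈ commutator N :=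
      Subgroup.commutator_mem_commutator (Subgroup.mem_top _) (Subgroup.mem_top _)
    have hcK : (⟨⁅a.p, b.p⁆, - lam ⁅a.p, b.p⁆⟩ : MM N) ∈ K := ⟨hc, rfl⟩
    have key : (⟨⁅a.p, b.p⁆, - lam ⁅a.p, b.p⁆⟩ : MM N) * (b * a) = a * b := by
      rw [hmul, hmul b a, hmul a b]
      refine MM.ext ?_ ?_
      · change ⁅a.p, b.p⁆ * (b.p * a.p) = a.p * b.p
        rw [commutatorElement_def]
        group
      · change - lam ⁅a.p, b.p⁆ + (b.q + a.q - β b.p a.p / 2) - β ⁅a.p, b.p⁆ (b.p * a.p) / 2
          = a.q + b.q - β a.p b.p / 2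
        rw [hk _ hc, hx a.p b.p, ← hβ]
        ring
    have e : ⁅a, b⁆ = (⟨⁅a.p, b.p⁆, - lam ⁅a.p, b.p⁆⟩ : MM N) := by
      have e1 : ⁅a, b⁆ * (b * a) = a * b := by
        rw [commutatorElement_def]
        group
      exact mul_right_cancel (e1.trans key.symm)
    rw [e]
    exact hcK
  -- the embedding of the reals
  let ι : ℝ →+ Additive (Abelianization (MM N)) :=
    AddMonoidHom.mk' (fun r => Additive.ofMul (Abelianization.of (⟨1, r⟩ : MM N))) (by
      intro r s
      rw [← ofMul_mul, ← map_mul, hmul]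
      change Additive.ofMul (Abelianization.of (⟨1, r + s⟩ : MM N))
        = Additive.ofMul (Abelianization.of (⟨1 * 1, r + s - β 1 1 / 2⟩ : MM N))
      rw [b1l h1, mul_one, zero_div, sub_zero])
  have hι : Function.Injective ι := by
    refine (injective_iff_map_eq_zero ι).2 ?_
    intro r hr
    have h3 : Abelianization.of (⟨1, r⟩ : MM N) = 1 := hr
    have h4 : (⟨1, r⟩ : MM N) ∈ commutator (MM N) := by
      rw [← Abelianization.ker_of]
      exact h3
    have h5 := (hcomm h4).2
    change r = - lam 1 at h5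
    rw [h5, hlam1, neg_zero]
  -- extension of the identity
  obtain ⟨θ, hθ⟩ : ∃ θ : Additive (Abelianization (MM N)) →+ ℝ, ∀ r, θ (ι r) = r := by
    let X := AddCommGrpCat.of ℝ
    let Y := AddCommGrpCat.of (Additive (Abelianization (MM N)))
    let f : X ⟶ Y := AddCommGrpCat.ofHom ι
    have : CategoryTheory.Mono f := CategoryTheory.ConcreteCategory.mono_of_injective f hι
    have : DivisibleBy ℝ ℤ := inferInstance
    have : CategoryTheory.Injective X := AddCommGrpCat.injective_of_divisible ℝ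
    let g : Y ⟶ X := CategoryTheory.Injective.factorThru (CategoryTheory.CategoryStruct.id X) f
    refine ⟨g.hom, ?_⟩
    intro r
    have h6 := CategoryTheory.Injective.comp_factorThru (CategoryTheory.CategoryStruct.id X) f
    have h7 := congrArg (fun t : X ⟶ X => t.hom r) h6
    exact h7
  refine ⟨fun x => θ (Additive.ofMul (Abelianization.of (⟨x, 0⟩ : MM N))), ?_⟩
  intro x y
  have h8 : (⟨x, 0⟩ : MM N) * ⟨y, 0⟩ = ⟨x * y, 0⟩ * ⟨1, - (β x y / 2)⟩ := by
    rw [hmul, hmul]
    refine MM.ext ?_ ?_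
    · change x * y = x * y * 1
      rw [mul_one]
    · change (0 : ℝ) + 0 - β x y / 2 = 0 + - (β x y / 2) - β (x * y) 1 / 2
      rw [b1r h2]
      ring
  have h9 := congrArg (fun t : MM N => θ (Additive.ofMul (Abelianization.of t))) h8
  simp only [map_mul, ofMul_mul, map_add] at h9
  have h10 : θ (Additive.ofMul (Abelianization.of (⟨1, - (β x y / 2)⟩ : MM N)))
      = - (β x y / 2) := hθ _
  rw [h10] at h9
  linarith

end

/-- Packet S2. -/
theorem gS2 : G_S2 := by
  intro N _ hcl lam hl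
  have hmem : ∀ x y : N, ⁅x, y⁆ ∈ commutator N := fun x y =>
    Subgroup.commutator_mem_commutator (Subgroup.mem_top _) (Subgroup.mem_top _)
  have hcen : ∀ k ∈ commutator N, ∀ z : N, k * z = z * k := by
    have : commutator N ≤ Subgroup.center N := by
      refine Subgroup.commutator_le.2 ?_
      intro x _ y _
      rw [Subgroup.mem_center_iff]
      intro z
      exact (hcl x y z).symm
    intro k hk z
    exact ((Subgroup.mem_center_iff.1 (this hk)) z).symm
  have hlam1 : lam 1 = 0 := by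
    have := hl 1 (Subgroup.one_mem _) 1 (Subgroup.one_mem _)
    rw [mul_one] at this
    linarith
  have h1 : ∀ x y z : N, lam ⁅x * y, z⁆ = lam ⁅x, z⁆ + lam ⁅y, z⁆ := by
    intro x y z
    have e : ⁅x * y, z⁆ = ⁅x, z⁆ * ⁅y, z⁆ := by
      have e1 : ⁅x * y, z⁆ = x * ⁅y, z⁆ * x⁻¹ * ⁅x, z⁆ := by
        simp only [commutatorElement_def]
        group
      rw [e1, ← hcl y z x, mul_assoc ⁅y, z⁆ x x⁻¹, mul_inv_cancel, mul_one, hcl y z]
    rw [e, hl _ (hmem _ _) _ (hmem _ _)]
  have hx : ∀ x y : N, lam ⁅y, x⁆ = - lam ⁅x, y⁆ := by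
    intro x y
    have e : ⁅y, x⁆ * ⁅x, y⁆ = 1 := by
      simp only [commutatorElement_def]
      group
    have := hl _ (hmem y x) _ (hmem x y)
    rw [e, hlam1] at this
    linarith
  have h2 : ∀ x y z : N, lam ⁅x, y * z⁆ = lam ⁅x, y⁆ + lam ⁅x, z⁆ := by
    intro x y z
    rw [hx (y * z) x, h1, hx x y, hx x z]
    ring
  have hk : ∀ k ∈ commutator N, ∀ x : N, lam ⁅k, x⁆ = 0 := by
    intro k hk x
    have e : ⁅k, x⁆ = 1 := by
      rw [commutatorElement_def, hcen k hk x]
      group
    rw [e, hlam1]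
  exact split (β := fun x y => lam ⁅x, y⁆) h1 h2 lam hl (fun _ _ => rfl) hk hx

end Pool.Agent.Helper94.HB
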